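import Pool.Agent.R838.Lift
import Pool.Agent.R838.Exist5

set_option autoImplicit false
set_option linter.style.haveILetI false

namespace Pool.Agent.Results.MP_a8f336_ag.ApproxDegreeZero

open PowerSeries TensorProduct Module Pool.Agent.R838.Approx

universe u

/-- The `k⟦X⟧`-algebra `S` is an abstract smoothing of the `k`-algebra `A`: it is finite and flat,
its generic fibre is geometrically reduced and its special fibre `S / XS` is isomorphic to `A`
(as a `k`-algebra; the isomorphism is given by a surjection `S → A` with kernel `XS`). -/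
structure IsAbstractSmoothing (k : Type u) [Field k] (A : Type u) [CommRing A] [Algebra k A]
    (S : Type u) [CommRing S] [Algebra k⟦X⟧ S] : Prop where
  finite : Module.Finite k⟦X⟧ S
  flat : Module.Flat k⟦X⟧ S
  geometricallyReduced :
    Algebra.IsGeometricallyReduced (LaurentSeries k) (LaurentSeries k ⊗[k⟦X⟧] S)
  special : ∃ f : S →+* A, Function.Surjective f ∧
    (∀ c : k, f (algebraMap k⟦X⟧ S (C c)) = algebraMap k A c) ∧
    RingHom.ker f = Ideal.span {algebraMap k⟦X⟧ S X}

/-- The generic fibre is a product of `d` copies of `k((X))`. -/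
def IsCompletelySplit (k : Type u) [Field k] (S : Type u) [CommRing S] [Algebra k⟦X⟧ S]
    (d : ℕ) : Prop :=
  Nonempty ((LaurentSeries k ⊗[k⟦X⟧] S) ≃ₐ[LaurentSeries k] (Fin d → LaurentSeries k))

/-- The approximation degree of `S` is at most `N`: some `k⟦X⟧`-basis of `S` has all its nonzero
structure constants of valuation at most `N`. -/
def ApproximationDegreeLE (k : Type u) [Field k] (S : Type u) [CommRing S] [Algebra k⟦X⟧ S]
    (N : ℕ) : Prop :=
  ∃ (d : ℕ) (e : Basis (Fin d) k⟦X⟧ S), ∀ i j l, e.repr (e i * e j) l ≠ 0 →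
    (e.repr (e i * e j) l).order ≤ N

theorem approximationDegree_zero (k : Type u) [Field k] [Infinite k] (S : Type u) [CommRing S]
    [Algebra k⟦X⟧ S] [Module.Finite k⟦X⟧ S] [Module.Flat k⟦X⟧ S] :
    ApproximationDegreeLE k S 0 := by
  haveI : Module.Free k⟦X⟧ S := Module.free_of_flat_of_isLocalRing
  rcases subsingleton_or_nontrivial S with h | h
  · exact ⟨0, Basis.empty S, fun i => i.elim0⟩
  · obtain ⟨e, he⟩ := exists_basis_unit (Module.finBasis k⟦X⟧ S)
    refine ⟨_, e, fun i j l _ => ?_⟩
    have h1 := order_le (φ := e.repr (e i * e j) l) 0 (by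
      rw [coeff_zero_eq_constantCoeff_apply]; exact he i j l)
    exact_mod_cast h1

theorem finrank_eq (k : Type u) [Field k] (A : Type u) [CommRing A] [Algebra k A]
    (S : Type u) [CommRing S] [Algebra k⟦X⟧ S] [Module.Finite k⟦X⟧ S] [Module.Free k⟦X⟧ S]
    (f : S →+* A) (hf : Function.Surjective f)
    (hfk : ∀ a : k, f (algebraMap k⟦X⟧ S (C a)) = algebraMap k A a)
    (hker : RingHom.ker f = Ideal.span {algebraMap k⟦X⟧ S X}) :
    finrank k⟦X⟧ S = finrank k A := by
  classical
  let b := Module.finBasis k⟦X⟧ S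
  have hfX : f (algebraMap k⟦X⟧ S X) = 0 := by
    rw [← RingHom.mem_ker, hker]
    exact Ideal.mem_span_singleton_self _
  have hfr : ∀ r : k⟦X⟧, f (algebraMap k⟦X⟧ S r) = algebraMap k A (constantCoeff r) := by
    intro r
    have h1 : (X : k⟦X⟧) ∣ r - C (constantCoeff r) := by
      rw [X_dvd_iff]; simp
    obtain ⟨r', hr'⟩ := h1
    have h2 : r = C (constantCoeff r) + X * r' := by linear_combination hr'
    conv_lhs => rw [h2]
    rw [map_add, map_add, hfk, map_mul, map_mul, hfX, zero_mul, add_zero]
  have hfs : ∀ (r : k⟦X⟧) s, f (r • s) = constantCoeff r • f s := by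
    intro r s
    rw [Algebra.smul_def, map_mul, hfr, ← Algebra.smul_def]
  have hli : LinearIndependent k (fun i => f (b i)) := by
    rw [Fintype.linearIndependent_iff]
    intro g hg i
    have h1 : f (∑ i, (C (g i) : k⟦X⟧) • b i) = 0 := by
      rw [map_sum, ← hg]
      refine Finset.sum_congr rfl fun i _ => ?_
      rw [hfs]; simp
    have h2 : (∑ i, (C (g i) : k⟦X⟧) • b i) ∈ RingHom.ker f := h1
    rw [hker, Ideal.mem_span_singleton] at h2
    obtain ⟨s, hs⟩ := h2
    have h3 := congrArg (fun x => b.repr x i) hs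
    beta_reduce at h3
    rw [← Algebra.smul_def, map_smul, Finsupp.smul_apply, smul_eq_mul] at h3
    have h4 := congrFun (b.repr_sum_self (fun i => (C (g i) : k⟦X⟧))) i
    have h5 := congrArg constantCoeff (h4.symm.trans h3)
    simpa using h5
  have hsp : ⊤ ≤ Submodule.span k (Set.range (fun i => f (b i))) := by
    intro a _
    obtain ⟨s, rfl⟩ := hf a
    rw [← b.sum_repr s, map_sum]
    refine Submodule.sum_mem _ fun i _ => ?_
    rw [hfs]
    exact Submodule.smul_mem _ _ (Submodule.subset_span ⟨i, rfl⟩)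
  have h6 := finrank_eq_card_basis (Basis.mk hli hsp)
  rw [h6, Fintype.card_fin]

/-- Every smoothable finite algebra `A` over an algebraically closed field has a completely split
abstract smoothing of approximation degree `0`; indeed every abstract smoothing of `A` has
approximation degree `0`. -/
theorem result (k : Type u) [Field k] [IsAlgClosed k] (A : Type u) [CommRing A] [Algebra k A]
    (hA : ∃ (S : Type u) (_ : CommRing S) (_ : Algebra k⟦X⟧ S), IsAbstractSmoothing k A S) :
    (∃ (S : Type u) (_ : CommRing S) (_ : Algebra k⟦X⟧ S), IsAbstractSmoothing k A S ∧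
      IsCompletelySplit k S (finrank k A) ∧ ApproximationDegreeLE k S 0) ∧
    (∀ (S : Type u) [CommRing S] [Algebra k⟦X⟧ S], IsAbstractSmoothing k A S →
      ApproximationDegreeLE k S 0) := by
  refine ⟨?_, ?_⟩
  · obtain ⟨S, _, _, hS⟩ := hA
    haveI := hS.finite
    haveI := hS.flat
    haveI := hS.geometricallyReduced
    haveI : Module.Free k⟦X⟧ S := Module.free_of_flat_of_isLocalRing
    obtain ⟨f, hf, hfk, hker⟩ := hS.special
    have hrank := finrank_eq k A S f hf hfk hker
    obtain ⟨φ, hφC, hφX, ψ, hψ, hψφ⟩ := exists_homs_powerSeries k S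
    have key : ∀ (P : Type u) [CommRing P] [IsDomain P] [Algebra k⟦X⟧ P]
        (c : P →+* k) (ι : k →+* P) (ϖ : P) (_ : ∀ a, c (ι a) = a)
        (_ : c ϖ = 0) (_ : ∀ p, ∃ p', p = ι (c p) + ϖ * p')
        (_ : ∀ a, algebraMap k⟦X⟧ P (C a) = ι a) (_ : ϖ ∣ algebraMap k⟦X⟧ P X)
        (F : Type u) [Field F] [Algebra P F] [IsFractionRing P F]
        (ψ' : Fin (finrank k⟦X⟧ S) → (S →+* P)) (_ : Function.Injective ψ')
        (_ : ∀ i r, ψ' i (algebraMap k⟦X⟧ S r) = algebraMap k⟦X⟧ P r),
        ∃ (T : Type u) (_ : CommRing T) (_ : Algebra P T), Module.Finite P T ∧ Module.Flat P T ∧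
          (∃ g : T →+* A, Function.Surjective g ∧
            (∀ a : k, g (algebraMap P T (ι a)) = algebraMap k A a) ∧
            RingHom.ker g = Ideal.span {algebraMap P T ϖ}) ∧
          Nonempty ((F ⊗[P] T) ≃ₐ[F] (Fin (finrank k A) → F)) := by
      intro P _ _ _ c ι ϖ h1 h2 h3 h4 h5 F _ _ _ ψ' hψ' hψc
      refine ⟨P ⊗[k⟦X⟧] S, inferInstance, inferInstance, inferInstance, inferInstance,
        special_of_baseChange c ι ϖ h1 h2 h3 h4 h5 f hf hfk hker, ?_⟩
      rw [← hrank]
      refine split_of_homs (F := F) (Module.finBasis k⟦X⟧ S)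
        (fun i => { ψ' i with commutes' := hψc i }) fun i j hij => hψ' (RingHom.ext fun x => ?_)
      exact DFunLike.congr_fun hij x
    have hdec : ∀ p : k⟦X⟧, ∃ p', p = C (constantCoeff p) + X * p' := by
      intro p
      have h1 : (X : k⟦X⟧) ∣ p - C (constantCoeff p) := by
        rw [X_dvd_iff]; simp
      obtain ⟨r', hr'⟩ := h1
      exact ⟨r', by linear_combination hr'⟩
    obtain ⟨T, i1, i2, hT1, hT2, hT3, hT4⟩ :=
      @key k⟦X⟧ inferInstance inferInstance φ.toAlgebra constantCoeff C X (by simp) (by simp) hdec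
        hφC hφX (LaurentSeries k) inferInstance inferInstance inferInstance
        ψ hψ hψφ
    have hgeo : Algebra.IsGeometricallyReduced (LaurentSeries k)
        (LaurentSeries k ⊗[k⟦X⟧] T) := by
      obtain ⟨e⟩ := hT4
      have h0 : Algebra.IsGeometricallyReduced (LaurentSeries k)
          (Fin (finrank k A) → LaurentSeries k) := by
        rw [Algebra.isGeometricallyReduced_field_iff]
        exact isReduced_of_injective
          (Algebra.TensorProduct.piScalarRight (LaurentSeries k) (LaurentSeries k)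
            (AlgebraicClosure (LaurentSeries k)) (Fin (finrank k A))).toRingEquiv
          (Algebra.TensorProduct.piScalarRight (LaurentSeries k) (LaurentSeries k)
            (AlgebraicClosure (LaurentSeries k)) (Fin (finrank k A))).injective
      exact Algebra.IsGeometricallyReduced.of_injective e.toAlgHom e.injective
    exact ⟨T, i1, i2, ⟨hT1, hT2, hgeo, hT3⟩, hT4, approximationDegree_zero k T⟩
  · intro S _ _ hS
    haveI := hS.finite
    haveI := hS.flat
    exact approximationDegree_zero k S

end Pool.Agent.Results.MP_a8f336_ag.ApproxDegreeZero
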